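import Pool.Agent.N832.CF.Main

/-!
# A critically fixed rational map with a multiplier outside the conjectured disk

We show that there is a critically fixed rational map `f` of degree `4111` with a fixed point
whose multiplier `μ` (about `1674.235 + 2029.937 i`) is not in the closed disk with centre
`(4111 + 1) / 2 = 2056` and radius `(4111 - 1) / 2 = 2055`: its distance to the centre is about
`2065.52`. So the answer to the question is negative.

The map is `f = N / D` with

* `N = 256 * ((1 + x / 256) ^ 4097 * Q - (1 - x / 256) ^ 4097 * P)`,
* `D = (1 + x / 256) ^ 4097 * Q + (1 - x / 256) ^ 4097 * P`,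
* `P = E (x ^ 2) + x * O (x ^ 2)` and `Q = E (x ^ 2) - x * O (x ^ 2)`, for polynomials `E`, `O` of
  degrees `7` and `6` with `E 0 = 1`.

Its critical points are `256` and `-256` (both of order `4096`) and three pairs `x`, `-x` of orders
`2`, `3` and `9`, and all of them are fixed. The coefficients of `E` and `O`, the constant `kap` and
the critical points `x1`, `x2`, `x3` solve a square system of 18 equations. The existence of an
exact solution next to a numerical one is obtained from the contraction principle; the interval
arithmetic needed for that is run by the kernel on natural numbers (fixed-point numbers with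
denominator `2 ^ 192`).
-/

namespace Pool.Agent.Results.MP_11e9c7_an.Counterexample

open Pool.Agent.N832.CF

/-- There is a critically fixed rational map `f` of degree `d = 4111` for which the set of
multipliers other than `0` and `1` is not contained in the closed disk with centre `(d + 1) / 2`
and radius `(d - 1) / 2`. -/
theorem result : ∃ f : RatMap, f.degree = 4111 ∧ f.CriticallyFixed ∧
    ¬ f.multiplierSet ⊆
      Metric.closedBall (((f.degree : ℂ) + 1) / 2) (((f.degree : ℝ) - 1) / 2) := by
  obtain ⟨f, hd, hc, μ, hμ, hlt⟩ := main_exists
  refine ⟨f, hd, hc, fun hsub => ?_⟩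
  have h := hsub hμ
  rw [Metric.mem_closedBall, dist_eq_norm, hd] at h
  have e1 : ((((4111 : ℕ) : ℂ) + 1) / 2) = 2056 := by norm_num
  have e2 : ((((4111 : ℕ) : ℝ) - 1) / 2) = 2055 := by norm_num
  rw [e1, e2] at h
  exact absurd h (not_le.2 hlt)

end Pool.Agent.Results.MP_11e9c7_an.Counterexample
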